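import Pool.Agent.Helper40.W4.Spec

/-! The place of a discrete valuation ring in the sense of `W4.DV`. -/

set_option autoImplicit false

namespace Pool.Agent.Helper78.W4

open Pool.Agent.Helper40.W4

section

variable {B K : Type} [CommRing B] [IsDomain B] [IsDiscreteValuationRing B] [Field K]
  [Algebra B K] [IsFractionRing B K]

theorem exists_rep {ϖ : B} (hϖ : Irreducible ϖ) (x : K) (hx : x ≠ 0) :
    ∃ (n : ℤ) (u : Bˣ), x = algebraMap B K u * algebraMap B K ϖ ^ n := by
  obtain ⟨a, b, hb, rfl⟩ := IsFractionRing.div_surjective (A := B) x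
  have hb0 : b ≠ 0 := nonZeroDivisors.ne_zero hb
  have ha0 : a ≠ 0 := by
    rintro rfl
    simp at hx
  obtain ⟨m, u, rfl⟩ := IsDiscreteValuationRing.eq_unit_mul_pow_irreducible ha0 hϖ
  obtain ⟨l, v, rfl⟩ := IsDiscreteValuationRing.eq_unit_mul_pow_irreducible hb0 hϖ
  have hϖ0 : algebraMap B K ϖ ≠ 0 := by
    rw [Ne, IsFractionRing.to_map_eq_zero_iff]
    exact hϖ.ne_zero
  have hv : algebraMap B K v * algebraMap B K (v⁻¹ : Bˣ) = 1 := by
    rw [← map_mul, Units.mul_inv, map_one]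
  have hv0 : algebraMap B K v ≠ 0 := left_ne_zero_of_mul_eq_one hv
  refine ⟨(m : ℤ) - l, u * v⁻¹, ?_⟩
  rw [map_mul, map_mul, map_pow, map_pow, Units.val_mul, map_mul, zpow_sub₀ hϖ0, zpow_natCast,
    zpow_natCast, eq_comm, eq_div_iff (mul_ne_zero hv0 (pow_ne_zero _ hϖ0))]
  field_simp
  rw [mul_comm, hv]

theorem unit_eq_zpow {ϖ : B} (hϖ : Irreducible ϖ) (u : Bˣ) (n : ℤ)
    (h : algebraMap B K u = algebraMap B K ϖ ^ n) : n = 0 := by
  have hϖ0 : algebraMap B K ϖ ≠ 0 := by
    rw [Ne, IsFractionRing.to_map_eq_zero_iff]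
    exact hϖ.ne_zero
  have key : ∀ (v : Bˣ) (t : ℕ), algebraMap B K v = algebraMap B K ϖ ^ t → t = 0 := by
    intro v t ht
    by_contra h0
    rw [← map_pow] at ht
    have h1 := IsFractionRing.injective B K ht
    exact hϖ.not_isUnit (isUnit_of_dvd_unit (dvd_pow_self ϖ h0) (h1 ▸ v.isUnit))
  rcases le_total 0 n with hn | hn
  · lift n to ℕ using hn
    rw [zpow_natCast] at h
    exact_mod_cast key u n h
  · obtain ⟨t, ht⟩ : ∃ t : ℕ, n = -(t : ℤ) := ⟨n.natAbs, by omega⟩
    rw [ht, zpow_neg, zpow_natCast] at h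
    have h1 : algebraMap B K (u⁻¹ : Bˣ) = algebraMap B K ϖ ^ t := by
      have h2 : algebraMap B K u * algebraMap B K (u⁻¹ : Bˣ) = 1 := by
        rw [← map_mul, Units.mul_inv, map_one]
      rw [h] at h2
      have h3 : algebraMap B K ϖ ^ t ≠ 0 := pow_ne_zero _ hϖ0
      field_simp at h2
      exact h2
    have := key _ t h1
    omega

theorem rep_unique {ϖ : B} (hϖ : Irreducible ϖ) (u v : Bˣ) (n m : ℤ)
    (h : algebraMap B K u * algebraMap B K ϖ ^ n = algebraMap B K v * algebraMap B K ϖ ^ m) :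
    n = m := by
  have hϖ0 : algebraMap B K ϖ ≠ 0 := by
    rw [Ne, IsFractionRing.to_map_eq_zero_iff]
    exact hϖ.ne_zero
  have hv : algebraMap B K v * algebraMap B K (v⁻¹ : Bˣ) = 1 := by
    rw [← map_mul, Units.mul_inv, map_one]
  have h1 : algebraMap B K (u * v⁻¹ : Bˣ) = algebraMap B K ϖ ^ (m - n) := by
    rw [Units.val_mul, map_mul, zpow_sub₀ hϖ0, eq_div_iff (zpow_ne_zero _ hϖ0)]
    calc algebraMap B K u * algebraMap B K (v⁻¹ : Bˣ) * algebraMap B K ϖ ^ n
        = (algebraMap B K u * algebraMap B K ϖ ^ n) * algebraMap B K (v⁻¹ : Bˣ) := by ring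
      _ = (algebraMap B K v * algebraMap B K (v⁻¹ : Bˣ)) * algebraMap B K ϖ ^ m := by
          rw [h]; ring
      _ = _ := by rw [hv, one_mul]
  have := unit_eq_zpow hϖ _ _ h1
  omega

/-- The order of a nonzero element of the fraction field. -/
noncomputable def ordZ (K : Type) [Field K] [Algebra B K] [IsFractionRing B K] {ϖ : B}
    (hϖ : Irreducible ϖ) (x : Kˣ) : ℤ :=
  (exists_rep (K := K) hϖ (x : K) x.ne_zero).choose

theorem ordZ_spec {ϖ : B} (hϖ : Irreducible ϖ) (x : Kˣ) :
    ∃ u : Bˣ, (x : K) = algebraMap B K u * algebraMap B K ϖ ^ (ordZ K hϖ x) :=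
  (exists_rep (K := K) hϖ (x : K) x.ne_zero).choose_spec

theorem ordZ_eq {ϖ : B} (hϖ : Irreducible ϖ) (x : Kˣ) (u : Bˣ) (n : ℤ)
    (h : (x : K) = algebraMap B K u * algebraMap B K ϖ ^ n) : ordZ K hϖ x = n := by
  obtain ⟨v, hv⟩ := ordZ_spec hϖ x
  exact rep_unique hϖ v u _ _ (hv.symm.trans h)

theorem exists_dv {ϖ : B} (hϖ : Irreducible ϖ) :
    ∃ P : DV K (IsLocalRing.ResidueField B),
      (∀ b : B, algebraMap B K b ∈ P.O) ∧
      (∀ x : K, x ∈ P.O → ∃ b : B, algebraMap B K b = x) ∧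
      (∀ (b : B) (h : algebraMap B K b ∈ P.O), P.res ⟨_, h⟩ = IsLocalRing.residue B b) ∧
      (P.π : K) = algebraMap B K ϖ ∧
      (∀ (x : Kˣ) (u : Bˣ) (n : ℤ), (x : K) = algebraMap B K u * algebraMap B K ϖ ^ n →
        (P.ord x).toAdd = n) := by
  have hϖ0 : algebraMap B K ϖ ≠ 0 := by
    rw [Ne, IsFractionRing.to_map_eq_zero_iff]
    exact hϖ.ne_zero
  have hinj := IsFractionRing.injective B K
  let e : B ≃+* (algebraMap B K).range :=
    RingEquiv.ofBijective (algebraMap B K).rangeRestrict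
      ⟨fun a b h => hinj (congrArg (fun z : (algebraMap B K).range => (z : K)) h),
        RingHom.rangeRestrict_surjective _⟩
  have he : ∀ (b : B) (h : algebraMap B K b ∈ (algebraMap B K).range),
      e.symm ⟨_, h⟩ = b := by
    intro b h
    rw [RingEquiv.symm_apply_eq]
    rfl
  have hmem : ∀ x : Kˣ, (x : K) ∈ (algebraMap B K).range ↔ 0 ≤ ordZ K hϖ x := by
    intro x
    obtain ⟨u, hu⟩ := ordZ_spec hϖ x
    constructor
    · rintro ⟨b, hb⟩
      have hb0 : b ≠ 0 := by
        rintro rfl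
        rw [map_zero] at hb
        exact x.ne_zero hb.symm
      obtain ⟨m, v, hm⟩ := IsDiscreteValuationRing.eq_unit_mul_pow_irreducible hb0 hϖ
      have : ordZ K hϖ x = m := ordZ_eq hϖ x v m (by rw [← hb, hm, map_mul, map_pow, zpow_natCast])
      omega
    · intro h
      obtain ⟨m, hm⟩ := Int.eq_ofNat_of_zero_le h
      refine ⟨u * ϖ ^ m, ?_⟩
      rw [hu, hm, map_mul, map_pow, zpow_natCast]
  refine ⟨{ O := (algebraMap B K).range
            res := (IsLocalRing.residue B).comp (e.symm : _ →+* _)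
            ord :=
              { toFun := fun x => Multiplicative.ofAdd (ordZ K hϖ x)
                map_one' := by
                  rw [ordZ_eq hϖ 1 1 0 (by simp)]; rfl
                map_mul' := by
                  intro x y
                  obtain ⟨u, hu⟩ := ordZ_spec hϖ x
                  obtain ⟨v, hv⟩ := ordZ_spec hϖ y
                  rw [ordZ_eq hϖ (x * y) (u * v) (ordZ K hϖ x + ordZ K hϖ y) (by
                    rw [Units.val_mul, Units.val_mul, map_mul, zpow_add₀ hϖ0]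
                    conv_lhs => rw [hu, hv]
                    ring)]
                  rfl }
            π := Units.mk0 _ hϖ0
            ord_π := by
              show Multiplicative.ofAdd (ordZ K hϖ _) = _
              rw [ordZ_eq hϖ _ 1 1 (by simp)]
            mem_O := hmem
            res_eq_zero := ?_ }, ?_, ?_, ?_, ?_, ?_⟩
  · intro x h
    obtain ⟨b, hb⟩ := id h
    have hb0 : b ≠ 0 := by
      rintro rfl
      rw [map_zero] at hb
      exact x.ne_zero hb.symm
    obtain ⟨m, v, hm⟩ := IsDiscreteValuationRing.eq_unit_mul_pow_irreducible hb0 hϖ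
    have h1 : ordZ K hϖ x = m := ordZ_eq hϖ x v m (by rw [← hb, hm, map_mul, map_pow, zpow_natCast])
    have h2 : e.symm ⟨x, h⟩ = b := by
      rw [RingEquiv.symm_apply_eq]
      exact Subtype.ext hb.symm
    show IsLocalRing.residue B (e.symm ⟨x, h⟩) = 0 ↔ 0 < ordZ K hϖ x
    rw [h2, h1, IsLocalRing.residue_eq_zero_iff, hm]
    constructor
    · intro h3
      rcases Nat.eq_zero_or_pos m with h4 | h4
      · exfalso
        rw [h4, pow_zero, mul_one, IsLocalRing.mem_maximalIdeal] at h3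
        exact h3 v.isUnit
      · exact_mod_cast h4
    · intro h3
      have h4 : 0 < m := by exact_mod_cast h3
      refine Ideal.mul_mem_left _ _ (Ideal.pow_mem_of_mem _ ?_ m h4)
      rw [IsLocalRing.mem_maximalIdeal]
      exact hϖ.not_isUnit
  · exact fun b => ⟨b, rfl⟩
  · rintro x ⟨b, hb⟩
    exact ⟨b, hb⟩
  · intro b h
    show IsLocalRing.residue B (e.symm ⟨_, h⟩) = _
    rw [he]
  · rfl
  · intro x u n h
    exact ordZ_eq hϖ x u n h

end

end Pool.Agent.Helper78.W4
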