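import Pool.Agent.Helper78.W4.I3

/-! Part H12: the hypotheses of W3 from the two embeddings in `k((z))`. -/

set_option autoImplicit false

namespace Pool.Agent.Helper78.W4

open Pool.Agent.Helper40.W4 Module Polynomial

section place

variable {K κ : Type} [Field K] [Field κ] (P : DV K κ)

/-- an element with nonzero residue -/
theorem unit_of_res (t : K) (ht : t ∈ P.O) (h : P.res ⟨t, ht⟩ ≠ 0) :
    ∃ u : Kˣ, (u : K) = t ∧ P.ord u = 1 ∧ (P.ac u : κ) = P.res ⟨t, ht⟩ := by
  have ht0 : t ≠ 0 := by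
    rintro rfl
    apply h
    have : (⟨0, ht⟩ : P.O) = 0 := rfl
    rw [this, map_zero]
  have hord : P.ord (Units.mk0 t ht0) = 1 := by
    have h1 : 0 ≤ (P.ord (Units.mk0 t ht0)).toAdd := (P.mem_O (Units.mk0 t ht0)).1 ht
    have h2 : ¬ 0 < (P.ord (Units.mk0 t ht0)).toAdd := by
      rw [← P.res_eq_zero (Units.mk0 t ht0) ht]
      exact h
    apply Multiplicative.toAdd.injective
    rw [toAdd_one]
    omega
  refine ⟨Units.mk0 t ht0, rfl, hord, ?_⟩
  rw [P.ac_of_ord _ hord]
  rfl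

/-- the sum of two elements of different orders -/
theorem add_of_ord_lt (u v : Kˣ) (h : (P.ord u).toAdd < (P.ord v).toAdd) :
    ∃ w : Kˣ, (w : K) = u + v ∧ P.ord w = P.ord u ∧ P.ac w = P.ac u := by
  have hord : 0 < (P.ord (v * u⁻¹)).toAdd := by
    rw [map_mul, map_inv, toAdd_mul, toAdd_inv]
    omega
  have hmem : ((v * u⁻¹ : Kˣ) : K) ∈ P.O := (P.mem_O _).2 hord.le
  have hres : P.res ⟨_, hmem⟩ = 0 := (P.res_eq_zero _ hmem).2 hord
  have h1 : (1 : K) + (v * u⁻¹ : Kˣ) ∈ P.O := P.O.add_mem P.O.one_mem hmem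
  have h2 : P.res ⟨_, h1⟩ = 1 := by
    have : (⟨_, h1⟩ : P.O) = 1 + ⟨_, hmem⟩ := rfl
    rw [this, map_add, hres, map_one, add_zero]
  obtain ⟨w, hw1, hw2, hw3⟩ := unit_of_res P _ h1 (by rw [h2]; exact one_ne_zero)
  refine ⟨u * w, ?_, ?_, ?_⟩
  · rw [Units.val_mul, hw1, Units.val_mul, Units.val_inv_eq_inv_val]
    have := u.ne_zero
    field_simp
  · rw [map_mul, hw2, mul_one]
  · rw [map_mul]
    have : P.ac w = 1 := by
      ext
      rw [hw3, h2, Units.val_one]
    rw [this, mul_one]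

theorem ac_π : P.ac P.π = 1 := by
  ext
  rw [P.ac_apply, Units.val_one]
  have h : P.unitPart P.π = 1 := by
    rw [DV.unitPart, P.ord_π, toAdd_ofAdd, zpow_neg, zpow_one, mul_inv_cancel]
  have h1 : (⟨((P.unitPart P.π : Kˣ) : K), P.unitPart_mem P.π⟩ : P.O) = 1 :=
    Subtype.ext (congrArg (fun u : Kˣ => (u : K)) h)
  rw [h1, map_one]

/-- A form whose residue forms are anisotropic is anisotropic. -/
theorem aniso_of_residue {ι : Type} [Fintype ι] (b : ι → Kˣ)
    (hres : ∀ (ε : ℤ) (y : ι → κ), (∀ i, y i ≠ 0 → Even ((P.ord (b i)).toAdd - ε)) →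
      ∑ i, (P.ac (b i) : κ) * y i ^ 2 = 0 → y = 0)
    (x : ι → K) (h : ∑ i, (b i : K) * x i ^ 2 = 0) : x = 0 := by
  classical
  by_contra hx
  have hne : (Finset.univ.filter fun i => x i ≠ 0).Nonempty := by
    by_contra h0
    rw [Finset.not_nonempty_iff_eq_empty] at h0
    apply hx
    funext i
    by_contra hi
    have hi2 : x i ≠ 0 := hi
    have : i ∈ (Finset.univ.filter fun i => x i ≠ 0) := by simp [hi2]
    rw [h0] at this
    simp at this
  let vv : ι → ℤ := fun i => if hi : x i ≠ 0 then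
    (P.ord (b i)).toAdd + 2 * (P.ord (Units.mk0 (x i) hi)).toAdd else 0
  obtain ⟨i₀, hi₀, hmin⟩ := Finset.exists_min_image _ vv hne
  have hi₀' : x i₀ ≠ 0 := by simpa using hi₀
  set v : ℤ := vv i₀ with hv
  let y : ι → κ := fun i => if hi : x i ≠ 0 then
    (if vv i = v then (P.ac (Units.mk0 (x i) hi) : κ) else 0) else 0
  have hterm : ∀ i, ∃ hm : (b i : K) * x i ^ 2 * ((P.π ^ (-v) : Kˣ) : K) ∈ P.O,
      P.res ⟨_, hm⟩ = (P.ac (b i) : κ) * y i ^ 2 := by
    intro i
    by_cases hi : x i = 0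
    · have h1 : (b i : K) * x i ^ 2 * ((P.π ^ (-v) : Kˣ) : K) = 0 := by rw [hi]; ring
      have h2 : (b i : K) * x i ^ 2 * ((P.π ^ (-v) : Kˣ) : K) ∈ P.O := by
        rw [h1]; exact P.O.zero_mem
      refine ⟨h2, ?_⟩
      have h3 : (⟨_, h2⟩ : P.O) = 0 := Subtype.ext h1
      have h4 : y i = 0 := by simp [y, hi]
      rw [h3, map_zero, h4]
      ring
    · set w : Kˣ := Units.mk0 (x i) hi with hw
      have h1 : (b i : K) * x i ^ 2 * ((P.π ^ (-v) : Kˣ) : K) =
          ((b i * w ^ 2 * P.π ^ (-v) : Kˣ) : K) := by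
        rw [Units.val_mul, Units.val_mul, Units.val_pow_eq_pow_val]
        rfl
      have hvi : vv i = (P.ord (b i)).toAdd + 2 * (P.ord w).toAdd := by
        simp only [vv, ne_eq, hi, not_false_eq_true, dif_pos]
        rfl
      have hord : (P.ord (b i * w ^ 2 * P.π ^ (-v))).toAdd = vv i - v := by
        have e1 : P.ord (b i * w ^ 2 * P.π ^ (-v)) =
            P.ord (b i) * (P.ord w) ^ 2 * (P.ord P.π) ^ (-v) := by
          rw [map_mul, map_mul, map_pow, map_zpow]
        rw [e1, P.ord_π, toAdd_mul, toAdd_mul, toAdd_pow, toAdd_zpow, toAdd_ofAdd, hvi]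
        simp only [smul_eq_mul, nsmul_eq_mul]
        push_cast
        ring
      have hle : v ≤ vv i := hmin i (by simp [hi])
      have h2 : (b i : K) * x i ^ 2 * ((P.π ^ (-v) : Kˣ) : K) ∈ P.O := by
        rw [h1, P.mem_O, hord]
        omega
      refine ⟨h2, ?_⟩
      by_cases hvv : vv i = v
      · have hord1 : P.ord (b i * w ^ 2 * P.π ^ (-v)) = 1 := by
          apply Multiplicative.toAdd.injective
          rw [hord, hvv, sub_self, toAdd_one]
        have h3 := P.ac_of_ord _ hord1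
        have h4 : y i = (P.ac w : κ) := by
          simp only [y, ne_eq, hi, not_false_eq_true, dif_pos, hvv, if_true]
          rfl
        rw [h4]
        rw [map_mul, map_mul, map_pow, map_zpow, ac_π, one_zpow, mul_one, Units.val_mul,
          Units.val_pow_eq_pow_val] at h3
        rw [h3]
        congr 1
      · have hlt : v < vv i := lt_of_le_of_ne hle (Ne.symm hvv)
        have h3 : P.res ⟨((b i * w ^ 2 * P.π ^ (-v) : Kˣ) : K), h1 ▸ h2⟩ = 0 :=
          (P.res_eq_zero _ _).2 (by rw [hord]; omega)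
        have h4 : y i = 0 := by
          simp only [y, ne_eq, hi, not_false_eq_true, dif_pos, hvv, if_false]
        rw [h4]
        refine Eq.trans ?_ (h3.trans (by ring))
        congr 1
  choose hm1 hm2 using hterm
  have hsum : ∑ i, (P.ac (b i) : κ) * y i ^ 2 = 0 := by
    simp_rw [← hm2]
    rw [← map_sum]
    have h1 : (∑ i, (⟨_, hm1 i⟩ : P.O)) = 0 := by
      apply Subtype.ext
      push_cast
      rw [← Finset.sum_mul, h, zero_mul]
    rw [h1, map_zero]
  have hy := hres v y (by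
    intro i hi
    by_cases hxi : x i = 0
    · exact absurd (by simp [y, hxi]) hi
    · by_cases hvv : vv i = v
      · have hvi : vv i = (P.ord (b i)).toAdd + 2 * (P.ord (Units.mk0 (x i) hxi)).toAdd := by
          simp only [vv, ne_eq, hxi, not_false_eq_true, dif_pos]
        refine ⟨-(P.ord (Units.mk0 (x i) hxi)).toAdd, ?_⟩
        omega
      · exact absurd (by simp [y, hxi, hvv]) hi) hsum
  have h5 := congrFun hy i₀
  have h6 : y i₀ = (P.ac (Units.mk0 (x i₀) hi₀') : κ) := by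
    simp only [y, ne_eq, hi₀', not_false_eq_true, dif_pos]
    rw [if_pos hv.symm]
  rw [h6] at h5
  exact (P.ac _).ne_zero h5

/-- Two coefficients of odd order and a sum of squares. -/
theorem aniso_two (hκ : FReal κ) (u₁ u₂ : Kˣ) (h1 : Odd (P.ord u₁).toAdd)
    (h2 : Odd (P.ord u₂).toAdd) (hsq : ¬ IsSquare (-((P.ac u₁ : κ) * (P.ac u₂ : κ)))) (m : ℕ)
    (x y : K) (z : Fin m → K) (h : (u₁ : K) * x ^ 2 + (u₂ : K) * y ^ 2 + ∑ i, z i ^ 2 = 0) :
    x = 0 ∧ y = 0 ∧ z = 0 := by
  classical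
  have key := aniso_of_residue P (ι := Fin 2 ⊕ Fin m)
    (Sum.elim ![u₁, u₂] (fun _ => 1)) ?_ (Sum.elim ![x, y] z) ?_
  · refine ⟨congrFun key (Sum.inl 0), congrFun key (Sum.inl 1), ?_⟩
    funext i
    exact congrFun key (Sum.inr i)
  · intro ε w hw hs
    rw [Fintype.sum_sum_type] at hs
    simp only [Sum.elim_inl, Sum.elim_inr, Fin.sum_univ_two, Matrix.cons_val_zero,
      Matrix.cons_val_one, map_one, Units.val_one, one_mul] at hs
    have hw0 := hw (Sum.inl 0)
    have hw1 := hw (Sum.inl 1)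
    have hw2 := fun i => hw (Sum.inr i)
    simp only [Sum.elim_inl, Sum.elim_inr, Matrix.cons_val_zero,
      Matrix.cons_val_one, map_one, toAdd_one] at hw0 hw1 hw2
    rcases Int.even_or_odd ε with he | ho
    · have e0 : w (Sum.inl 0) = 0 := by
        by_contra hcon
        have := hw0 hcon
        rw [Int.even_sub'] at this
        exact (Int.not_even_iff_odd.2 (this.1 h1)) he
      have e1 : w (Sum.inl 1) = 0 := by
        by_contra hcon
        have := hw1 hcon
        rw [Int.even_sub'] at this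
        exact (Int.not_even_iff_odd.2 (this.1 h2)) he
      rw [e0, e1] at hs
      have hs' : ∑ i : Fin m, w (Sum.inr i) ^ 2 = 0 := by
        rw [← hs]; ring
      have h3 := hκ m (fun i => w (Sum.inr i)) hs'
      funext j
      rcases j with j | j
      · fin_cases j
        · exact e0
        · exact e1
      · exact h3 j
    · have e2 : ∀ i, w (Sum.inr i) = 0 := by
        intro i
        by_contra hcon
        have h3 := hw2 i hcon
        rw [zero_sub, even_neg] at h3
        exact (Int.not_even_iff_odd.2 ho) h3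
      have hs' : (P.ac u₁ : κ) * w (Sum.inl 0) ^ 2 + (P.ac u₂ : κ) * w (Sum.inl 1) ^ 2 = 0 := by
        rw [← hs]
        simp [e2]
      have e1 : w (Sum.inl 1) = 0 := by
        by_contra hcon
        apply hsq
        refine ⟨(P.ac u₁ : κ) * w (Sum.inl 0) / w (Sum.inl 1), ?_⟩
        field_simp
        linear_combination (-1) * hs'
      have e0 : w (Sum.inl 0) = 0 := by
        rw [e1] at hs'
        have h3 : (P.ac u₁ : κ) * w (Sum.inl 0) ^ 2 = 0 := by rw [← hs']; ring
        rcases mul_eq_zero.1 h3 with h4 | h4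
        · exact absurd h4 (P.ac u₁).ne_zero
        · exact pow_eq_zero_iff (two_ne_zero) |>.1 h4
      funext j
      rcases j with j | j
      · fin_cases j
        · exact e0
        · exact e1
      · exact e2 j
  · rw [Fintype.sum_sum_type]
    simp only [Sum.elim_inl, Sum.elim_inr, Fin.sum_univ_two, Matrix.cons_val_zero,
      Matrix.cons_val_one, Units.val_one, one_mul]
    exact h

/-- the orders and residues of `θ ↦ a θ⁶ + θ⁵ + c` -/
theorem sextic {k : Type} [Field k] [Algebra k κ] (hsurj : Function.Surjective (algebraMap k κ))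
    (φ : k →+* K) (hφ : ∀ c : k, ∃ h : φ c ∈ P.O, P.res ⟨_, h⟩ = algebraMap k κ c) (a c : k)
    (ha : ¬ IsSquare a) (hf : ∀ x : k, ¬ IsSquare (a * x ^ 6 + x ^ 5 + c)) (θ : K) :
    ∃ g : Kˣ, (g : K) = φ a * θ ^ 6 + θ ^ 5 + φ c ∧ Even (P.ord g).toAdd ∧
      ¬ IsSquare ((P.ac g : κ)) := by
  have hns : ∀ x : k, ¬ IsSquare x → ¬ IsSquare (algebraMap k κ x) := by
    intro x hx hsq
    apply hx
    obtain ⟨y, hy⟩ := hsq
    obtain ⟨y', rfl⟩ := hsurj y
    refine ⟨y', (algebraMap k κ).injective ?_⟩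
    rw [map_mul]
    exact hy
  obtain ⟨haO, har⟩ := hφ a
  obtain ⟨hcO, hcr⟩ := hφ c
  by_cases hθ : θ ∈ P.O
  · obtain ⟨x, hx⟩ := hsurj (P.res ⟨θ, hθ⟩)
    set t : P.O := ⟨φ a, haO⟩ * ⟨θ, hθ⟩ ^ 6 + ⟨θ, hθ⟩ ^ 5 + ⟨φ c, hcO⟩ with ht
    have htv : (t : K) = φ a * θ ^ 6 + θ ^ 5 + φ c := by rw [ht]; push_cast; rfl
    have htr : P.res t = algebraMap k κ (a * x ^ 6 + x ^ 5 + c) := by
      rw [ht]
      simp only [map_add, map_mul, map_pow, har, hcr, ← hx]
    have h1 : P.res t ≠ 0 := by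
      rw [htr]
      intro h0
      apply hns _ (hf x)
      rw [h0]
      exact ⟨0, by ring⟩
    obtain ⟨g, hg1, hg2, hg3⟩ := unit_of_res P (t : K) t.2 h1
    refine ⟨g, hg1.trans htv, by rw [hg2]; simp, ?_⟩
    rw [hg3]
    show ¬ IsSquare (P.res t)
    rw [htr]
    exact hns _ (hf x)
  · have hθ0 : θ ≠ 0 := by
      rintro rfl
      exact hθ P.O.zero_mem
    set u : Kˣ := Units.mk0 θ hθ0 with hu
    have hord : 0 < (P.ord u⁻¹).toAdd := by
      rw [map_inv, toAdd_inv]
      have h1 : ¬ 0 ≤ (P.ord u).toAdd := by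
        rw [← P.mem_O]
        exact hθ
      omega
    have hτ : ((u⁻¹ : Kˣ) : K) ∈ P.O := (P.mem_O _).2 hord.le
    have hτr : P.res ⟨_, hτ⟩ = 0 := (P.res_eq_zero _ hτ).2 hord
    set t : P.O := ⟨φ a, haO⟩ + ⟨_, hτ⟩ + ⟨φ c, hcO⟩ * ⟨_, hτ⟩ ^ 6 with ht
    have htv : (t : K) * θ ^ 6 = φ a * θ ^ 6 + θ ^ 5 + φ c := by
      have e1 : ((u⁻¹ : Kˣ) : K) = θ⁻¹ := by rw [Units.val_inv_eq_inv_val, hu, Units.val_mk0]
      have e2 : (t : K) = φ a + ((u⁻¹ : Kˣ) : K) + φ c * ((u⁻¹ : Kˣ) : K) ^ 6 := rfl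
      rw [e2, e1]
      field_simp
    have htr : P.res t = algebraMap k κ a := by
      rw [ht]
      simp only [map_add, map_mul, map_pow, har, hcr, hτr]
      ring
    have h1 : P.res t ≠ 0 := by
      rw [htr]
      intro h0
      apply hns _ ha
      rw [h0]
      exact ⟨0, by ring⟩
    obtain ⟨g, hg1, hg2, hg3⟩ := unit_of_res P (t : K) t.2 h1
    refine ⟨g * u ^ 6, ?_, ?_, ?_⟩
    · rw [Units.val_mul, Units.val_pow_eq_pow_val, hg1, hu, Units.val_mk0]
      exact htv
    · rw [map_mul, map_pow, hg2, one_mul, toAdd_pow]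
      exact ⟨3 * (P.ord u).toAdd, by simp; ring⟩
    · rw [map_mul, map_pow, Units.val_mul, Units.val_pow_eq_pow_val, hg3]
      show ¬ IsSquare (P.res t * _)
      rw [htr]
      rintro ⟨y, hy⟩
      apply hns _ ha
      refine ⟨y / (P.ac u : κ) ^ 3, ?_⟩
      have := (P.ac u).ne_zero
      field_simp
      rw [pow_two, ← hy]

end place

/-- An extension of odd degree of `k((z))`, `k` without odd extensions. -/
theorem odd_setup (k : Type) [Field k] [CharZero k] (hoc : OddClosed k) (N : Type) [Field N]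
    [Algebra (LaurentSeries k) N] [FiniteDimensional (LaurentSeries k) N]
    (hodd : Odd (finrank (LaurentSeries k) N)) :
    ∃ (κ : Type) (_ : Field κ) (_ : Algebra k κ) (P : DV N κ),
      Function.Surjective (algebraMap k κ) ∧
      (∀ c : k, ∃ h : ((algebraMap (LaurentSeries k) N).comp HahnSeries.C) c ∈ P.O,
        P.res ⟨_, h⟩ = algebraMap k κ c) ∧
      ∃ z : Nˣ, (z : N) = algebraMap (LaurentSeries k) N (HahnSeries.single 1 1) ∧
        Odd (P.ord z).toAdd ∧ 0 < (P.ord z).toAdd := by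
  obtain ⟨κ, i1, i2, P, hfd, -, -, hconst, z, hz, hzd⟩ := hen_thm k N
  have hpos : 0 < (P.ord z).toAdd := by
    have h1 : (0 : ℤ) < finrank (LaurentSeries k) N := by exact_mod_cast hodd.pos
    rw [← hzd] at h1
    exact pos_of_mul_pos_left h1 (by positivity)
  have hodd2 : Odd ((P.ord z).toAdd * (finrank k κ : ℤ)) := by
    rw [hzd]
    exact_mod_cast hodd
  rw [Int.odd_mul] at hodd2
  have hodd3 : Odd (finrank k κ) := by exact_mod_cast hodd2.2
  refine ⟨κ, i1, i2, P, ?_, hconst, z, hz, hodd2.1, hpos⟩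
  intro y
  have hint : IsIntegral k y := IsIntegral.of_finite k y
  have hdvd : (minpoly k y).natDegree ∣ finrank k κ := minpoly.degree_dvd hint
  have hodd4 : Odd (minpoly k y).natDegree := hodd3.of_dvd_nat hdvd
  obtain ⟨x, hx⟩ := hoc _ hodd4
  have hirr := minpoly.irreducible hint
  have hdeg : (minpoly k y).natDegree = 1 := by
    have h1 := Polynomial.degree_eq_one_of_irreducible_of_root hirr hx
    exact Polynomial.natDegree_eq_of_degree_eq_some h1
  have := minpoly.natDegree_eq_one_iff.1 hdeg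
  exact this

theorem freal_of_surj {k κ : Type} [Field k] [Field κ] [Algebra k κ] (hk : FReal k)
    (hsurj : Function.Surjective (algebraMap k κ)) : FReal κ := by
  intro n x hx i
  choose y hy using fun i => hsurj (x i)
  have h1 : ∑ i, y i ^ 2 = 0 := by
    apply (algebraMap k κ).injective
    rw [map_sum, map_zero, ← hx]
    exact Finset.sum_congr rfl fun i _ => by rw [map_pow, hy]
  rw [← hy i, hk n y h1 i, map_zero]

theorem nsq_of_surj {k κ : Type} [Field k] [Field κ] [Algebra k κ]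
    (hsurj : Function.Surjective (algebraMap k κ)) (x : k) (hx : ¬ IsSquare x) :
    ¬ IsSquare (algebraMap k κ x) := by
  intro hsq
  apply hx
  obtain ⟨y, hy⟩ := hsq
  obtain ⟨y', rfl⟩ := hsurj y
  refine ⟨y', (algebraMap k κ).injective ?_⟩
  rw [map_mul]
  exact hy

/-- a constant as a unit of order zero -/
theorem const_unit {k K κ : Type} [Field k] [Field K] [Field κ] [Algebra k κ] (P : DV K κ)
    (φ : k →+* K) (hφ : ∀ c : k, ∃ h : φ c ∈ P.O, P.res ⟨_, h⟩ = algebraMap k κ c) (a : k)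
    (ha : a ≠ 0) : ∃ u : Kˣ, (u : K) = φ a ∧ P.ord u = 1 ∧ (P.ac u : κ) = algebraMap k κ a := by
  obtain ⟨haO, har⟩ := hφ a
  have ha0 : algebraMap k κ a ≠ 0 := by
    intro h0
    exact ha ((algebraMap k κ).injective (by rw [h0, map_zero]))
  obtain ⟨u, hu1, hu2, hu3⟩ := unit_of_res P _ haO (by rw [har]; exact ha0)
  exact ⟨u, hu1, hu2, hu3.trans har⟩

/-- First form over `N`. -/
theorem formA (k : Type) [Field k] [CharZero k] (hoc : OddClosed k) (hk : FReal k) (a : k)
    (ha : ¬ IsSquare a) (N : Type) [Field N]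
    [Algebra (LaurentSeries k) N] [FiniteDimensional (LaurentSeries k) N]
    (hodd : Odd (finrank (LaurentSeries k) N)) (α A : N)
    (hα : α = algebraMap (LaurentSeries k) N (HahnSeries.single 1 1))
    (hA : A = algebraMap (LaurentSeries k) N (HahnSeries.C a)) (m : ℕ) (x y : N) (z : Fin m → N)
    (h : α * x ^ 2 - α * (α + A) * y ^ 2 + ∑ i, z i ^ 2 = 0) : x = 0 ∧ y = 0 ∧ z = 0 := by
  obtain ⟨κ, i1, i2, P, hsurj, hconst, t, ht, hto, htpos⟩ := odd_setup k hoc N hodd
  obtain ⟨u, hu1, hu2, hu3⟩ := const_unit P _ hconst a (by rintro rfl; exact ha ⟨0, by ring⟩)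
  have hαt : α = (t : N) := by rw [hα, ht]
  have huA : A = (u : N) := by rw [hA, hu1]; rfl
  obtain ⟨w, hw1, hw2, hw3⟩ := add_of_ord_lt P u t (by rw [hu2]; simpa using htpos)
  refine aniso_two P (freal_of_surj hk hsurj) t (-(t * w)) hto ?_ ?_ m x y z ?_
  · rw [P.ord_neg, map_mul, hw2, hu2, mul_one]
    exact hto
  · rintro ⟨r, hr⟩
    apply nsq_of_surj hsurj a ha
    refine ⟨r / (P.ac t : κ), ?_⟩
    rw [P.ac_neg, map_mul, hw3] at hr
    push_cast at hr
    rw [hu3] at hr
    have := (P.ac t).ne_zero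
    field_simp
    linear_combination hr
  · rw [← h, hαt, huA]
    push_cast
    rw [hw1]
    ring

/-- Second form over `N`. -/
theorem formB (k : Type) [Field k] [CharZero k] (hoc : OddClosed k) (hk : FReal k) (a c : k)
    (ha : ¬ IsSquare a) (hf : ∀ x : k, ¬ IsSquare (a * x ^ 6 + x ^ 5 + c)) (N : Type) [Field N]
    [Algebra (LaurentSeries k) N] [FiniteDimensional (LaurentSeries k) N]
    (hodd : Odd (finrank (LaurentSeries k) N)) (α A : N)
    (hα : α = algebraMap (LaurentSeries k) N (HahnSeries.single (-1) 1))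
    (hA : A = algebraMap (LaurentSeries k) N (HahnSeries.C a)) (g : N)
    (hg : g = A ∨ ∃ θ : N, g = A * θ ^ 6 + θ ^ 5 + algebraMap (LaurentSeries k) N (HahnSeries.C c))
    (m : ℕ) (x y : N) (z : Fin m → N)
    (h : -(α + A) * x ^ 2 + α * g * y ^ 2 + ∑ i, z i ^ 2 = 0) : x = 0 ∧ y = 0 ∧ z = 0 := by
  obtain ⟨κ, i1, i2, P, hsurj, hconst, t, ht, hto, htpos⟩ := odd_setup k hoc N hodd
  obtain ⟨u, hu1, hu2, hu3⟩ := const_unit P _ hconst a (by rintro rfl; exact ha ⟨0, by ring⟩)
  have huA : A = (u : N) := by rw [hA, hu1]; rfl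
  have hαt : α = ((t⁻¹ : Nˣ) : N) := by
    rw [Units.val_inv_eq_inv_val, ht, hα]
    refine eq_inv_of_mul_eq_one_left ?_
    rw [← map_mul, HahnSeries.single_mul_single]
    simp
  have hto' : Odd (P.ord t⁻¹).toAdd := by
    rw [map_inv, toAdd_inv]
    exact hto.neg
  have htneg : (P.ord t⁻¹).toAdd < 0 := by
    rw [map_inv, toAdd_inv]
    omega
  obtain ⟨g', hg1, hg2, hg3⟩ : ∃ g' : Nˣ, (g' : N) = g ∧ Even (P.ord g').toAdd ∧
      ¬ IsSquare ((P.ac g' : κ)) := by
    rcases hg with hg | ⟨θ, hg⟩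
    · refine ⟨u, by rw [hg, huA], by rw [hu2]; simp, ?_⟩
      rw [hu3]
      exact nsq_of_surj hsurj a ha
    · obtain ⟨g', h1, h2, h3⟩ := sextic P hsurj _ hconst a c ha hf θ
      refine ⟨g', ?_, h2, h3⟩
      rw [h1, hg, hA]
      rfl
  obtain ⟨w, hw1, hw2, hw3⟩ := add_of_ord_lt P t⁻¹ u (by rw [hu2]; simpa using htneg)
  refine aniso_two P (freal_of_surj hk hsurj) (-w) (t⁻¹ * g') ?_ ?_ ?_ m x y z ?_
  · rw [P.ord_neg, hw2]
    exact hto'
  · rw [map_mul, toAdd_mul]
    exact hto'.add_even hg2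
  · rintro ⟨r, hr⟩
    apply hg3
    refine ⟨r / (P.ac t⁻¹ : κ), ?_⟩
    rw [P.ac_neg, map_mul, hw3] at hr
    have h5 := (P.ac t⁻¹).ne_zero
    rw [Units.val_neg, Units.val_mul] at hr
    field_simp
    linear_combination hr
  · rw [← h, hαt, huA, Units.val_neg, Units.val_mul, hw1, hg1]

/-- an irreducible factor of odd degree -/
theorem odd_factor {K : Type} [Field K] : ∀ (n : ℕ) (q : K[X]), q.natDegree = n → Odd n →
    ∃ r, Irreducible r ∧ r ∣ q ∧ Odd r.natDegree := by
  intro n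
  induction n using Nat.strong_induction_on with
  | _ n ih =>
    intro q hq hn
    have hq0 : q ≠ 0 := by
      rintro rfl
      rw [natDegree_zero] at hq
      rw [← hq] at hn
      simp at hn
    have hqu : ¬ IsUnit q := by
      intro hu
      rw [natDegree_eq_zero_of_isUnit hu] at hq
      rw [← hq] at hn
      simp at hn
    obtain ⟨r, hr, s, hs⟩ := WfDvdMonoid.exists_irreducible_factor hqu hq0
    by_cases ho : Odd r.natDegree
    · exact ⟨r, hr, ⟨s, hs⟩, ho⟩
    · have hs0 : s ≠ 0 := by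
        rintro rfl
        rw [mul_zero] at hs
        exact hq0 hs
      have h1 : q.natDegree = r.natDegree + s.natDegree := by
        rw [hs, natDegree_mul hr.ne_zero hs0]
      have h2 : 0 < r.natDegree := hr.natDegree_pos
      rw [Nat.not_odd_iff_even] at ho
      have h3 : Odd s.natDegree := by
        rw [hq] at h1
        rw [h1] at hn
        exact (Nat.odd_add'.1 hn).2 ho
      obtain ⟨r', h4, h5, h6⟩ := ih s.natDegree (by omega) s rfl h3
      exact ⟨r', h4, h5.trans ⟨r, by rw [hs, mul_comm]⟩, h6⟩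

/-- descent to the polynomial ring over `F` -/
theorem poly_step {F M : Type} [Field F] [Field M] (j : F →+* M) (p : F[X]) (hp : Irreducible p)
    (hodd : Odd p.natDegree) :
    ∃ r : M[X], Irreducible r ∧ Odd r.natDegree ∧ r ∣ p.map j ∧
      ∀ x : F[X], r ∣ x.map j → p ∣ x := by
  obtain ⟨r, hr1, hr2, hr3⟩ := odd_factor _ (p.map j) rfl (by rwa [natDegree_map])
  refine ⟨r, hr1, hr3, hr2, ?_⟩
  intro x hx
  by_contra hpx
  have hco : IsCoprime p x := (hp.coprime_iff_not_dvd).2 hpx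
  have hco2 : IsCoprime (p.map j) (x.map j) := by
    have := hco.map (mapRingHom j)
    simpa using this
  exact hr1.not_isUnit (hco2.isUnit_of_dvd' hr2 hx)

/-- Part H12. -/
theorem h12_thm : S_H12 := by
  intro k _ _ hoc hk a c ha hf F _ ι j₁ j₂ α hj₁ hj₂ hα₁ hα₂
  have hself : Odd (finrank (LaurentSeries k) (LaurentSeries k)) := by
    rw [finrank_self]; exact odd_one
  refine ⟨?_, ?_, ?_, ?_⟩
  · intro p hp hodd m x y z hdvd
    obtain ⟨r, hr1, hr2, hr3, hr4⟩ := poly_step j₁ p hp hodd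
    have : Fact (Irreducible r) := ⟨hr1⟩
    have : FiniteDimensional (LaurentSeries k) (AdjoinRoot r) :=
      (AdjoinRoot.powerBasis hr1.ne_zero).finite
    have hfr : Odd (finrank (LaurentSeries k) (AdjoinRoot r)) := by
      rw [(AdjoinRoot.powerBasis hr1.ne_zero).finrank, AdjoinRoot.powerBasis_dim]
      exact hr2
    have hker : ∀ u : F[X], AdjoinRoot.mk r (u.map j₁) = 0 → p ∣ u := fun u hu =>
      hr4 u (AdjoinRoot.mk_eq_zero.1 hu)
    have h0 : AdjoinRoot.mk r ((C α * x ^ 2 - C (α * (α + ι a)) * y ^ 2 + ∑ i, z i ^ 2).map j₁) = 0 :=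
      AdjoinRoot.mk_eq_zero.2 (hr3.trans (Polynomial.map_dvd j₁ hdvd))
    have key := formA k hoc hk a ha (AdjoinRoot r) hfr
      (AdjoinRoot.mk r ((C α).map j₁)) (AdjoinRoot.mk r ((C (ι a)).map j₁))
      (by rw [Polynomial.map_C, hα₁]; rfl) (by rw [Polynomial.map_C, hj₁]; rfl) m
      (AdjoinRoot.mk r (x.map j₁)) (AdjoinRoot.mk r (y.map j₁))
      (fun i => AdjoinRoot.mk r ((z i).map j₁)) (by
        rw [← h0]
        simp only [Polynomial.map_add, Polynomial.map_sub, Polynomial.map_mul, Polynomial.map_pow,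
          Polynomial.map_C, map_mul, map_add, map_sub, map_pow, map_sum, Polynomial.map_sum])
    exact ⟨hker _ key.1, hker _ key.2.1, fun i => hker _ (congrFun key.2.2 i)⟩
  · intro p hp hodd m x y z hdvd
    obtain ⟨r, hr1, hr2, hr3, hr4⟩ := poly_step j₂ p hp hodd
    have : Fact (Irreducible r) := ⟨hr1⟩
    have : FiniteDimensional (LaurentSeries k) (AdjoinRoot r) :=
      (AdjoinRoot.powerBasis hr1.ne_zero).finite
    have hfr : Odd (finrank (LaurentSeries k) (AdjoinRoot r)) := by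
      rw [(AdjoinRoot.powerBasis hr1.ne_zero).finrank, AdjoinRoot.powerBasis_dim]
      exact hr2
    have hker : ∀ u : F[X], AdjoinRoot.mk r (u.map j₂) = 0 → p ∣ u := fun u hu =>
      hr4 u (AdjoinRoot.mk_eq_zero.1 hu)
    have h0 : AdjoinRoot.mk r ((-C (α + ι a) * x ^ 2 + C α * fpoly (ι a) (ι c) * y ^ 2 +
        ∑ i, z i ^ 2).map j₂) = 0 :=
      AdjoinRoot.mk_eq_zero.2 (hr3.trans (Polynomial.map_dvd j₂ hdvd))
    have key := formB k hoc hk a c ha hf (AdjoinRoot r) hfr
      (AdjoinRoot.mk r ((C α).map j₂)) (AdjoinRoot.mk r ((C (ι a)).map j₂))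
      (by rw [Polynomial.map_C, hα₂]; rfl) (by rw [Polynomial.map_C, hj₂]; rfl)
      (AdjoinRoot.mk r ((fpoly (ι a) (ι c)).map j₂))
      (Or.inr ⟨AdjoinRoot.mk r X, by
        rw [fpoly]
        simp only [Polynomial.map_add, Polynomial.map_mul, Polynomial.map_pow,
          Polynomial.map_C, map_mul, map_add, map_pow, Polynomial.map_X, hj₂]
        rfl⟩) m
      (AdjoinRoot.mk r (x.map j₂)) (AdjoinRoot.mk r (y.map j₂))
      (fun i => AdjoinRoot.mk r ((z i).map j₂)) (by
        rw [← h0]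
        simp only [Polynomial.map_add, Polynomial.map_neg, Polynomial.map_mul, Polynomial.map_pow,
          Polynomial.map_C, map_mul, map_add, map_neg, map_pow, map_sum, Polynomial.map_sum])
    exact ⟨hker _ key.1, hker _ key.2.1, fun i => hker _ (congrFun key.2.2 i)⟩
  · intro m x y z h
    have h0 : j₁ (α * x ^ 2 - α * (α + ι a) * y ^ 2 + ∑ i, z i ^ 2) = 0 := by rw [h, map_zero]
    have key := formA k hoc hk a ha (LaurentSeries k) hself (j₁ α) (j₁ (ι a))
      (by rw [hα₁]; rfl) (by rw [hj₁]; rfl) m (j₁ x) (j₁ y) (fun i => j₁ (z i)) (by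
        rw [← h0]
        simp only [map_mul, map_add, map_sub, map_pow, map_sum])
    refine ⟨(map_eq_zero j₁).1 key.1, (map_eq_zero j₁).1 key.2.1, ?_⟩
    funext i
    exact (map_eq_zero j₁).1 (congrFun key.2.2 i)
  · intro m x y z h
    have h0 : j₂ (-(α + ι a) * x ^ 2 + α * ι a * y ^ 2 + ∑ i, z i ^ 2) = 0 := by rw [h, map_zero]
    have key := formB k hoc hk a c ha hf (LaurentSeries k) hself (j₂ α) (j₂ (ι a))
      (by rw [hα₂]; rfl) (by rw [hj₂]; rfl) (j₂ (ι a)) (Or.inl rfl) m (j₂ x) (j₂ y)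
      (fun i => j₂ (z i)) (by
        rw [← h0]
        simp only [map_mul, map_add, map_neg, map_pow, map_sum])
    refine ⟨(map_eq_zero j₂).1 key.1, (map_eq_zero j₂).1 key.2.1, ?_⟩
    funext i
    exact (map_eq_zero j₂).1 (congrFun key.2.2 i)

end Pool.Agent.Helper78.W4
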