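import Pool.Agent.Helper78.W4.DVR
import Pool.Graph.R_pool_sql_team_seeded_63374d34.N825.WP.HENa
import Pool.Graph.R_pool_sql_team_seeded_63374d34.N825.WP.HENb
import Pool.Graph.R_pool_sql_team_seeded_63374d34.N825.WP.HENc

/-! Part HEN: finite extensions of `k((z))` (adapted from the library module `N825.WP.HEN1`). -/

set_option autoImplicit false

namespace Pool.Agent.Helper78.W4

open Pool.Agent.Helper40.W4 Pool.Agent.N825.WP Module

theorem hen_core (k : Type) [Field k] [CharZero k]
    (B : Type) [CommRing B] [IsDedekindDomain B] [Algebra (PowerSeries k) B]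
    [Module.Finite (PowerSeries k) B] (hinj : Function.Injective (algebraMap (PowerSeries k) B))
    (N : Type) [Field N] [Algebra B N] [IsFractionRing B N] [Algebra (LaurentSeries k) N]
    [Algebra (PowerSeries k) N] [IsScalarTower (PowerSeries k) B N]
    [IsScalarTower (PowerSeries k) (LaurentSeries k) N] :
    ∃ (κ : Type) (_ : Field κ) (_ : Algebra k κ) (P : DV N κ),
      FiniteDimensional k κ ∧ Function.Surjective P.res ∧
      (∀ x : Nˣ, Even (P.ord x).toAdd → IsSquare (P.ac x) → IsSquare x) ∧
      (∀ c : k, ∃ h : algebraMap (LaurentSeries k) N (HahnSeries.C c) ∈ P.O,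
        P.res ⟨_, h⟩ = algebraMap k κ c) ∧
      ∃ z : Nˣ, (z : N) = algebraMap (LaurentSeries k) N (HahnSeries.single 1 1) ∧
        (P.ord z).toAdd * (finrank k κ : ℤ) = finrank (LaurentSeries k) N := by
  classical
  have hloc : IsLocalRing B := t_HENb t_HENa k B hinj
  have hnf : ¬ IsField B := fun h =>
    IsDiscreteValuationRing.not_isField (PowerSeries k) (isField_of_isIntegral_of_isField hinj h)
  have hT := IsDiscreteValuationRing.TFAE B hnf
  have hT0 : IsDedekindDomain B ↔ IsDiscreteValuationRing B := hT.out 2 0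
  have hT2 : IsDedekindDomain B ↔
      ∀ I : Ideal B, I ≠ ⊥ → ∃ n : ℕ, I = IsLocalRing.maximalIdeal B ^ n := hT.out 2 6
  have hDVR : IsDiscreteValuationRing B := hT0.1 inferInstance
  have hpow := hT2.1 inferInstance
  obtain ⟨x, hx⟩ : ∃ x, x = algebraMap (PowerSeries k) B PowerSeries.X := ⟨_, rfl⟩
  have hx0 : x ≠ 0 := by
    rw [hx]
    intro h
    exact PowerSeries.X_ne_zero (hinj (h.trans (map_zero _).symm))
  have hxm : x ∈ IsLocalRing.maximalIdeal B := by
    rw [IsLocalRing.mem_maximalIdeal, mem_nonunits_iff]
    intro h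
    have := (faithfulSMul_iff_algebraMap_injective (PowerSeries k) B).mpr hinj
    rw [hx] at h
    have h1 : IsUnit (PowerSeries.X : PowerSeries k) := isUnit_of_map_unit (algebraMap _ B) _ h
    have h2 := PowerSeries.isUnit_constantCoeff _ h1
    rw [PowerSeries.constantCoeff_X] at h2
    exact not_isUnit_zero h2
  have hN : ∃ N : ℕ, IsLocalRing.maximalIdeal B ^ N ≤ Ideal.span {x} := by
    obtain ⟨N, hN⟩ := hpow (Ideal.span {x}) (by
      rw [Ne, Ideal.span_singleton_eq_bot]
      exact hx0)
    exact ⟨N, hN.symm.le⟩
  obtain ⟨ψ, hψ⟩ : ∃ ψ : k →+* IsLocalRing.ResidueField B, ψ = (IsLocalRing.residue B).comp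
      ((algebraMap (PowerSeries k) B).comp PowerSeries.C) := ⟨_, rfl⟩
  have hres : ∀ r : PowerSeries k, IsLocalRing.residue B (algebraMap _ B r) =
      ψ (PowerSeries.constantCoeff r) := by
    intro r
    have h1 : PowerSeries.X ∣ r - PowerSeries.C (PowerSeries.constantCoeff r) := by
      rw [PowerSeries.X_dvd_iff]
      simp
    obtain ⟨q, hq⟩ := h1
    have h2 : IsLocalRing.residue B (algebraMap _ B
        (r - PowerSeries.C (PowerSeries.constantCoeff r))) = 0 := by
      rw [IsLocalRing.residue_eq_zero_iff, hq, map_mul, ← hx]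
      exact Ideal.mul_mem_right _ _ hxm
    rw [map_sub, map_sub, sub_eq_zero] at h2
    rw [h2, hψ]
    rfl
  let _ : Algebra k (IsLocalRing.ResidueField B) := ψ.toAlgebra
  obtain ⟨ϖ, hϖ⟩ := IsDiscreteValuationRing.exists_irreducible B
  obtain ⟨P, hP1, hP2, hP3, hP4, hP5⟩ := exists_dv (K := N) hϖ
  have hinjN := IsFractionRing.injective B N
  refine ⟨IsLocalRing.ResidueField B, inferInstance, ψ.toAlgebra, P, ?_, ?_, ?_, ?_, ?_⟩
  · obtain ⟨n, f, hf⟩ := Module.Finite.exists_fin' (PowerSeries k) B
    refine Module.Finite.of_surjective (Fintype.linearCombination k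
      (fun i : Fin n => IsLocalRing.residue B (f fun j => if i = j then 1 else 0))) ?_
    intro y
    obtain ⟨b, rfl⟩ := IsLocalRing.residue_surjective y
    obtain ⟨w, rfl⟩ := hf b
    refine ⟨fun i => PowerSeries.constantCoeff (w i), ?_⟩
    rw [Fintype.linearCombination_apply, LinearMap.pi_apply_eq_sum_univ f w, map_sum]
    refine Finset.sum_congr rfl fun i _ => ?_
    rw [Algebra.smul_def (w i), map_mul, hres, Algebra.smul_def]
    rfl
  · intro y
    obtain ⟨b, rfl⟩ := IsLocalRing.residue_surjective y
    exact ⟨⟨_, hP1 b⟩, hP3 b _⟩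
  · intro y hy1 hy2
    obtain ⟨m, hm⟩ := hy1
    obtain ⟨t, ht⟩ := hy2
    have h2 : IsUnit (2 : B) := by
      have h3 : IsUnit (2 : k) := (two_ne_zero).isUnit
      have h4 := h3.map ((algebraMap (PowerSeries k) B).comp PowerSeries.C)
      rwa [map_ofNat] at h4
    have h3 : HenselianRing B (Ideal.span {x}) := by
      rw [hx]
      exact t_HENa k B hinj
    obtain ⟨b, hb⟩ := IsLocalRing.residue_surjective (t : IsLocalRing.ResidueField B)
    obtain ⟨a, ha⟩ := hP2 _ (P.unitPart_mem y)
    have ha' : IsLocalRing.residue B a = (P.ac y : IsLocalRing.ResidueField B) := by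
      rw [P.ac_apply, ← hP3 a (ha ▸ P.unitPart_mem y)]
      congr 1
      exact Subtype.ext ha
    obtain ⟨c, hc⟩ := t_HENc B x h2 h3 hN a b (fun h => by
        have := (IsLocalRing.residue_eq_zero_iff b).2 h
        rw [hb] at this
        exact t.ne_zero this) (by
        rw [← IsLocalRing.residue_eq_zero_iff, map_sub, map_pow, hb, ha', ht, sub_eq_zero]
        push_cast
        ring)
    have hc0 : algebraMap B N c ≠ 0 := by
      intro h0
      have h5 : algebraMap B N a = 0 := by rw [← hc, map_pow, h0]; ring
      rw [ha] at h5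
      exact (P.unitPart y).ne_zero h5
    refine ⟨Units.mk0 _ hc0 * P.π ^ m, ?_⟩
    have h6 : y = P.unitPart y * P.π ^ ((P.ord y).toAdd) := by
      rw [DV.unitPart, mul_assoc, ← zpow_add]
      simp
    have h7 : P.unitPart y = Units.mk0 _ hc0 * Units.mk0 _ hc0 := by
      ext
      rw [← ha, ← hc, map_pow]
      push_cast
      rw [Units.val_mk0]
      ring
    rw [h6, h7, hm, zpow_add]
    exact mul_mul_mul_comm _ _ _ _
  · intro c
    have h1 : algebraMap (LaurentSeries k) N (HahnSeries.C c) =
        algebraMap B N (algebraMap (PowerSeries k) B (PowerSeries.C c)) := by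
      rw [← IsScalarTower.algebraMap_apply (PowerSeries k) B N,
        IsScalarTower.algebraMap_apply (PowerSeries k) (LaurentSeries k) N,
        ← PowerSeries.coe_C]
      rfl
    refine ⟨h1 ▸ hP1 _, ?_⟩
    have h2 := hP3 (algebraMap (PowerSeries k) B (PowerSeries.C c)) (hP1 _)
    rw [hres, PowerSeries.constantCoeff_C] at h2
    refine Eq.trans ?_ h2
    congr 1
    exact Subtype.ext h1
  · have h1 : algebraMap (LaurentSeries k) N (HahnSeries.single 1 1) = algebraMap B N x := by
      rw [hx, ← IsScalarTower.algebraMap_apply (PowerSeries k) B N,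
        IsScalarTower.algebraMap_apply (PowerSeries k) (LaurentSeries k) N,
        ← PowerSeries.coe_X]
      rfl
    have hxN : algebraMap B N x ≠ 0 := fun h => hx0 (hinjN (h.trans (map_zero _).symm))
    refine ⟨Units.mk0 _ (h1 ▸ hxN), by rw [Units.val_mk0], ?_⟩
    obtain ⟨e, u, heu⟩ := IsDiscreteValuationRing.eq_unit_mul_pow_irreducible hx0 hϖ
    rw [hP5 _ u (e : ℤ) (by rw [Units.val_mk0, h1, heu, map_mul, map_pow, zpow_natCast])]
    have hmax : (IsLocalRing.maximalIdeal (PowerSeries k)).IsMaximal := inferInstance
    have hmX : IsLocalRing.maximalIdeal (PowerSeries k) = Ideal.span {PowerSeries.X} :=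
      PowerSeries.maximalIdeal_eq_span_X
    have hm0 : IsLocalRing.maximalIdeal (PowerSeries k) ≠ ⊥ := by
      rw [hmX, Ne, Ideal.span_singleton_eq_bot]
      exact PowerSeries.X_ne_zero
    have hmap : (IsLocalRing.maximalIdeal (PowerSeries k)).map (algebraMap (PowerSeries k) B) =
        Ideal.span {x} := by
      rw [hmX, Ideal.map_span, Set.image_singleton, hx]
    have hMB : IsLocalRing.maximalIdeal B = Ideal.span {ϖ} :=
      (IsDiscreteValuationRing.irreducible_iff_uniformizer ϖ).1 hϖ
    have htf : Module.IsTorsionFree (PowerSeries k) B :=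
      Module.isTorsionFree_iff_algebraMap_injective.2 hinj
    have hsum := Ideal.sum_ramification_inertia (R := PowerSeries k) B (LaurentSeries k) N
      (p := IsLocalRing.maximalIdeal (PowerSeries k)) hm0
    rw [IsLocalRing.primesOverFinset_eq B hm0, Finset.sum_singleton] at hsum
    have hram : (IsLocalRing.maximalIdeal (PowerSeries k)).ramificationIdx'
        (IsLocalRing.maximalIdeal B) = e := by
      refine Ideal.ramificationIdx'_spec ?_ ?_
      · rw [hmap, hMB, Ideal.span_singleton_pow, Ideal.span_singleton_le_iff_mem,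
          Ideal.mem_span_singleton, heu]
        exact dvd_mul_left _ _
      · rw [hmap, hMB, Ideal.span_singleton_pow, Ideal.span_singleton_le_iff_mem,
          Ideal.mem_span_singleton, heu]
        rintro ⟨w, hw⟩
        have h3 : ϖ ^ e * (u : B) = ϖ ^ e * (ϖ * w) := by
          rw [mul_comm, hw]; ring
        have h4 := mul_left_cancel₀ (pow_ne_zero _ hϖ.ne_zero) h3
        exact hϖ.not_isUnit (isUnit_of_dvd_unit (Dvd.intro _ h4.symm) u.isUnit)
    have hover : (IsLocalRing.maximalIdeal B).LiesOver (IsLocalRing.maximalIdeal (PowerSeries k)) := by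
      refine ⟨?_⟩
      have h3 : ((IsLocalRing.maximalIdeal B).comap (algebraMap (PowerSeries k) B)).IsMaximal :=
        Ideal.isMaximal_comap_of_isIntegral_of_isMaximal _
      exact (IsLocalRing.eq_maximalIdeal h3).symm
    have hin : (IsLocalRing.maximalIdeal (PowerSeries k)).inertiaDeg' (IsLocalRing.maximalIdeal B) =
        finrank k (IsLocalRing.ResidueField B) := by
      rw [Ideal.inertiaDeg'_algebraMap]
      have hker : RingHom.ker (PowerSeries.constantCoeff (R := k)) =
          IsLocalRing.maximalIdeal (PowerSeries k) := by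
        rw [hmX]
        ext r
        rw [RingHom.mem_ker, Ideal.mem_span_singleton, PowerSeries.X_dvd_iff]
      let i : (PowerSeries k ⧸ IsLocalRing.maximalIdeal (PowerSeries k)) ≃+* k :=
        (Ideal.quotEquivOfEq hker.symm).trans (RingHom.quotientKerEquivOfSurjective
          (f := PowerSeries.constantCoeff (R := k)) (fun c => ⟨PowerSeries.C c, by simp⟩))
      refine Algebra.finrank_eq_of_equiv_equiv i (RingEquiv.refl _) ?_
      refine Ideal.Quotient.ringHom_ext (RingHom.ext fun r => ?_)
      have h3 : i (Ideal.Quotient.mk _ r) = PowerSeries.constantCoeff r := rfl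
      show ψ (i (Ideal.Quotient.mk _ r)) = _
      rw [h3, ← hres]
      rfl
    rw [hram, hin] at hsum
    exact_mod_cast hsum

theorem hen_thm : S_HEN := by
  intro k _ _ N _ _ _
  let _ : Algebra (PowerSeries k) N :=
    ((algebraMap (LaurentSeries k) N).comp (algebraMap (PowerSeries k) (LaurentSeries k))).toAlgebra
  have hst : IsScalarTower (PowerSeries k) (LaurentSeries k) N := IsScalarTower.of_algebraMap_eq' rfl
  have hcz : CharZero (LaurentSeries k) := by
    have h1 : Function.Injective (((HahnSeries.C : k →+* HahnSeries ℤ k)) : k → LaurentSeries k) :=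
      RingHom.injective _
    exact charZero_of_injective_ringHom (f := (HahnSeries.C : k →+* LaurentSeries k)) h1
  have hsep : Algebra.IsSeparable (LaurentSeries k) N := inferInstance
  have hded : IsDedekindDomain (integralClosure (PowerSeries k) N) :=
    integralClosure.isDedekindDomain (PowerSeries k) (LaurentSeries k) N
  have hfin : Module.Finite (PowerSeries k) (integralClosure (PowerSeries k) N) :=
    IsIntegralClosure.finite (PowerSeries k) (LaurentSeries k) N _
  have hfr : IsFractionRing (integralClosure (PowerSeries k) N) N :=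
    integralClosure.isFractionRing_of_finite_extension (LaurentSeries k) N
  have hinjL : Function.Injective (algebraMap (PowerSeries k) N) := by
    change Function.Injective (((algebraMap (LaurentSeries k) N).comp
      (algebraMap (PowerSeries k) (LaurentSeries k))))
    rw [RingHom.coe_comp]
    exact (RingHom.injective _).comp (IsFractionRing.injective (PowerSeries k) (LaurentSeries k))
  have hinj : Function.Injective (algebraMap (PowerSeries k) (integralClosure (PowerSeries k) N)) := by
    intro a b h
    exact hinjL (congrArg (fun z : integralClosure (PowerSeries k) N => (z : N)) h)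
  exact hen_core k (integralClosure (PowerSeries k) N) hinj N

end Pool.Agent.Helper78.W4
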