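import Pool.Agent.Helper78.W4.HEN

/-! Part I3: the torsion of `I³` for finite extensions of `k((z))`. -/

set_option autoImplicit false

namespace Pool.Agent.Helper78.W4

open Pool.Agent.Helper40.W4 Module

theorem isot_of_inj {K : Type} [Field K] {m n : ℕ} (e : Fin m → Fin n) (he : Function.Injective e)
    (a : Fin n → K) (h : Isot (fun j => a (e j))) : Isot a := by
  obtain ⟨x, hx, hs⟩ := h
  refine ⟨Function.extend e x 0, ?_, ?_⟩
  · intro h0
    apply hx
    funext j
    have := congrFun h0 (e j)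
    rw [he.extend_apply] at this
    exact this
  · rw [← hs]
    symm
    refine Fintype.sum_of_injective e he _ _ ?_ ?_
    · intro i hi
      rw [Function.extend_apply' _ _ _ (by rintro ⟨j, hj⟩; exact hi ⟨j, hj⟩)]
      simp
    · intro j
      rw [he.extend_apply]

/-- scaling by squares and a common factor -/
theorem isot_scale {K : Type} [Field K] {n : ℕ} (u b : Fin n → K) (c : K) (s : Fin n → K)
    (hs : ∀ i, s i ≠ 0) (hb : ∀ i, b i = c * u i * s i ^ 2) (h : Isot u) : Isot b := by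
  obtain ⟨x, hx, h0⟩ := h
  refine ⟨fun i => x i / s i, ?_, ?_⟩
  · intro h1
    apply hx
    funext i
    have h2 := congrFun h1 i
    simp only [Pi.zero_apply, div_eq_zero_iff] at h2
    rcases h2 with h2 | h2
    · exact h2
    · exact absurd h2 (hs i)
  · have : ∀ i, b i * (x i / s i) ^ 2 = c * (u i * x i ^ 2) := by
      intro i
      rw [hb i]
      have := hs i
      field_simp
    simp_rw [this]
    rw [← Finset.mul_sum, h0, mul_zero]

/-- Hensel lifting of isotropy. -/
theorem isot_lift0 {K κ : Type} [Field K] [Field κ] (P : DV K κ) (hres : Function.Surjective P.res)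
    (hsq : ∀ x : Kˣ, Even (P.ord x).toAdd → IsSquare (P.ac x) → IsSquare x) {n : ℕ}
    (u : Fin n → Kˣ) (hu : ∀ i, P.ord (u i) = 1) (h : Isot (fun i => (P.ac (u i) : κ))) :
    Isot (fun i => (u i : K)) := by
  classical
  obtain ⟨y, hy, hs⟩ := h
  obtain ⟨i₀, hi₀⟩ : ∃ i, y i ≠ 0 := by
    by_contra hcon
    push Not at hcon
    exact hy (funext hcon)
  choose t ht using fun i => hres (y i)
  set S : P.O := ∑ i ∈ Finset.univ.erase i₀, ⟨(u i : K), P.mem_of_ord _ (hu i)⟩ * t i ^ 2 with hS
  have hac : ∀ i, (P.ac (u i) : κ) = P.res ⟨(u i : K), P.mem_of_ord _ (hu i)⟩ := fun i =>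
    P.ac_of_ord (u i) (hu i)
  have hresS : P.res S = - ((P.ac (u i₀) : κ) * y i₀ ^ 2) := by
    rw [hS, map_sum]
    have h1 : ∑ i, (P.ac (u i) : κ) * y i ^ 2 = (P.ac (u i₀) : κ) * y i₀ ^ 2 +
        ∑ i ∈ Finset.univ.erase i₀, (P.ac (u i) : κ) * y i ^ 2 :=
      (Finset.add_sum_erase _ _ (Finset.mem_univ i₀)).symm
    rw [hs] at h1
    rw [eq_neg_iff_add_eq_zero, add_comm, h1]
    congr 1
    refine Finset.sum_congr rfl fun i _ => ?_
    rw [map_mul, map_pow, ht, hac]
  have hresS0 : P.res S ≠ 0 := by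
    rw [hresS]
    exact neg_ne_zero.2 (mul_ne_zero (P.ac (u i₀)).ne_zero (pow_ne_zero _ hi₀))
  have hS0 : (S : K) ≠ 0 := by
    intro h0
    apply hresS0
    have : S = 0 := Subtype.ext h0
    rw [this, map_zero]
  set s : Kˣ := Units.mk0 (S : K) hS0 with hsdef
  have hsO : (s : K) ∈ P.O := S.2
  have hsord : P.ord s = 1 := by
    have h1 : 0 ≤ (P.ord s).toAdd := (P.mem_O s).1 hsO
    have h2 : ¬ 0 < (P.ord s).toAdd := by
      rw [← P.res_eq_zero s hsO]
      exact hresS0
    apply Multiplicative.toAdd.injective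
    rw [toAdd_one]
    omega
  have hsac : (P.ac s : κ) = P.res S := by
    rw [P.ac_of_ord s hsord]
    rfl
  obtain ⟨w, hw⟩ := hsq (-s * (u i₀)⁻¹) (by
      rw [map_mul, map_inv, P.ord_neg, hsord, hu i₀]
      simp) ⟨Units.mk0 (y i₀) hi₀, by
      rw [map_mul, map_inv, P.ac_neg]
      ext
      rw [Units.val_mul, Units.val_neg, hsac, hresS]
      have := (P.ac (u i₀)).ne_zero
      push_cast
      rw [Units.val_mk0]
      field_simp⟩
  refine ⟨fun i => if i = i₀ then (w : K) else (t i : K), ?_, ?_⟩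
  · intro h0
    have := congrFun h0 i₀
    simp at this
  · have h1 := Finset.add_sum_erase Finset.univ
      (fun i => (u i : K) * (if i = i₀ then (w : K) else (t i : K)) ^ 2) (Finset.mem_univ i₀)
    rw [← h1]
    simp only [if_true]
    have h2 : ∑ i ∈ Finset.univ.erase i₀, (u i : K) * (if i = i₀ then (w : K) else (t i : K)) ^ 2 =
        (S : K) := by
      rw [hS]
      push_cast
      refine Finset.sum_congr rfl fun i hi => ?_
      rw [if_neg (Finset.ne_of_mem_erase hi)]
    rw [h2]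
    have h3 : (u i₀ : K) * (w : K) ^ 2 = - (s : K) := by
      have h4 := congrArg (fun v : Kˣ => (v : K)) hw
      simp only [Units.val_mul, Units.val_neg, Units.val_inv_eq_inv_val] at h4
      rw [pow_two, ← h4]
      have := (u i₀).ne_zero
      field_simp
    rw [h3, hsdef, Units.val_mk0]
    ring

/-- Hensel lifting of isotropy, coefficients of the same parity of order. -/
theorem isot_lift {K κ : Type} [Field K] [Field κ] (P : DV K κ) (hres : Function.Surjective P.res)
    (hsq : ∀ x : Kˣ, Even (P.ord x).toAdd → IsSquare (P.ac x) → IsSquare x) {n : ℕ}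
    (b : Fin n → Kˣ) (r : ℤ) (hb : ∀ i, Even ((P.ord (b i)).toAdd - r))
    (h : Isot (fun i => (P.ac (b i) : κ))) : Isot (fun i => (b i : K)) := by
  choose m hm using hb
  have hac : ∀ i, P.ac (P.unitPart (b i)) = P.ac (b i) := by
    intro i
    ext
    rw [P.ac_of_ord _ (P.ord_unitPart _), P.ac_apply]
  have h1 := isot_lift0 P hres hsq (fun i => P.unitPart (b i)) (fun i => P.ord_unitPart _)
    (by simp_rw [hac]; exact h)
  refine isot_scale (fun i => (P.unitPart (b i) : K)) (fun i => (b i : K)) ((P.π ^ r : Kˣ) : K)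
    (fun i => ((P.π ^ (m i) : Kˣ) : K)) (fun i => Units.ne_zero _) ?_ h1
  intro i
  rw [← Units.val_pow_eq_pow_val, ← Units.val_mul, ← Units.val_mul]
  congr 1
  have h2 : b i = P.unitPart (b i) * P.π ^ ((P.ord (b i)).toAdd) := by
    rw [DV.unitPart, mul_assoc, ← zpow_add]
    simp
  conv_lhs => rw [h2]
  have h3 : (P.ord (b i)).toAdd = r + (m i + m i) := by
    have := hm i
    omega
  calc P.unitPart (b i) * P.π ^ ((P.ord (b i)).toAdd)
      = P.unitPart (b i) * (P.π ^ r * (P.π ^ m i * P.π ^ m i)) := by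
        rw [h3, zpow_add, zpow_add]
    _ = (P.unitPart (b i) * P.π ^ r) * (P.π ^ m i * P.π ^ m i) := (mul_assoc _ _ _).symm
    _ = _ := by rw [mul_comm (P.unitPart (b i)) (P.π ^ r), pow_two]

theorem i3_thm (hPHI : S_PHI) (hSOUND : S_SOUND) (hWVAL : S_WVAL) : S_I3 := by
  intro k _ _ hk N _ _ _ ξ hξ M hM hMξ
  classical
  obtain ⟨κ, _, _, P, hfd, hres, hsq, -, -⟩ := hen_thm k N
  have hcz : CharZero (LaurentSeries k) := by
    have h1 : Function.Injective (((HahnSeries.C : k →+* HahnSeries ℤ k)) : k → LaurentSeries k) :=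
      RingHom.injective _
    exact charZero_of_injective_ringHom (f := (HahnSeries.C : k →+* LaurentSeries k)) h1
  have hczN : CharZero N := charZero_of_injective_algebraMap
    (FaithfulSMul.algebraMap_injective (LaurentSeries k) N)
  have hczκ : CharZero κ := charZero_of_injective_algebraMap (FaithfulSMul.algebraMap_injective k κ)
  obtain ⟨d₀, d₁, h01, h02, ⟨h11, h12⟩, hpow⟩ := hPHI N κ P
  obtain ⟨hξ0, hξ1, -⟩ := hpow 2 ξ hξ
  have htors : ∀ d : W N →+ W κ, d ξ ∈ fI κ ^ 2 → d ξ = 0 := by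
    intro d hd
    refine hk κ (d ξ) hd M hM ?_
    have e1 : (M : W κ) * d ξ = M • d ξ := (nsmul_eq_mul M (d ξ)).symm
    have e2 : (M : W N) * ξ = M • ξ := (nsmul_eq_mul M ξ).symm
    rw [e1, ← map_nsmul, ← e2, hMξ, map_zero]
  have hd0 := htors d₀ hξ0
  have hd1 := htors d₁ hξ1
  -- a minimal representation
  have hex : ∃ n : ℕ, ∃ a : Fin n → Nˣ, ξ = cl a := (hWVAL N).1 ξ
  obtain ⟨n, ⟨a, ha⟩, hmin⟩ : ∃ n, (∃ a : Fin n → Nˣ, ξ = cl a) ∧
      ∀ m, (∃ b : Fin m → Nˣ, ξ = cl b) → n ≤ m :=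
    ⟨Nat.find hex, Nat.find_spec hex, fun m h => Nat.find_min' hex h⟩
  have haniso : ¬ Isot (fun i => (a i : N)) := by
    intro hiso
    obtain ⟨m, b, hmb, hab⟩ := (hWVAL N).2.2 n a hiso
    have : n ≤ m := hmin m ⟨b, ha.trans hab⟩
    omega
  -- the parts of each parity are empty
  have hpart : ∀ (p : Fin n → Prop) [DecidablePred p] (r : ℤ) (d : W N →+ W κ), d ξ = 0 →
      (∀ i, p i → d (br (a i)) = br (P.ac (a i)) ∧ Even ((P.ord (a i)).toAdd - r)) →
      (∀ i, ¬ p i → d (br (a i)) = 0) → ∀ i, ¬ p i := by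
    intro p _ r d hd h1 h2 i hi
    set E : Finset (Fin n) := Finset.univ.filter p with hE
    set e : Fin E.card → Fin n := fun j => (E.equivFin.symm j : Fin n) with he
    have hinj : Function.Injective e := fun j j' h =>
      E.equivFin.symm.injective (Subtype.ext h)
    have hep : ∀ j, p (e j) := by
      intro j
      have h3 : (E.equivFin.symm j : Fin n) ∈ E := (E.equivFin.symm j).2
      exact (Finset.mem_filter.1 h3).2
    have hcl : cl (fun j => P.ac (a (e j))) = 0 := by
      rw [← hd, ha]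
      simp only [cl, map_sum]
      have h3 : ∑ i, d (br (a i)) = ∑ i ∈ E, d (br (a i)) := by
        symm
        refine Finset.sum_subset (Finset.subset_univ _) fun i _ hi => h2 i ?_
        simpa [hE] using hi
      rw [h3, ← Finset.sum_coe_sort E]
      rw [← Equiv.sum_comp E.equivFin.symm (fun i : E => d (br (a i)))]
      exact Finset.sum_congr rfl fun j _ => ((h1 (e j) (hep j)).1).symm
    have hEpos : 0 < E.card := Finset.card_pos.2 ⟨i, by simp [hE, hi]⟩
    have hiso := (hSOUND κ).2 _ _ hEpos hcl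
    have hiso2 := isot_lift P hres hsq (fun j => a (e j)) r (fun j => (h1 (e j) (hep j)).2) hiso
    exact haniso (isot_of_inj e hinj _ hiso2)
  have hn0 : n = 0 := by
    by_contra hne
    have i : Fin n := ⟨0, Nat.pos_of_ne_zero hne⟩
    rcases Int.even_or_odd ((P.ord (a i)).toAdd) with he | ho
    · refine hpart (fun i => Even ((P.ord (a i)).toAdd)) 0 d₀ hd0 ?_ ?_ i he
      · intro i hi
        exact ⟨h02 _ hi, by rw [sub_zero]; exact hi⟩
      · intro i hi
        exact h01 _ (Int.not_even_iff_odd.1 hi)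
    · refine hpart (fun i => Odd ((P.ord (a i)).toAdd)) 1 d₁ hd1 ?_ ?_ i ho
      · intro i hi
        exact ⟨h12 _ hi, by
          obtain ⟨t, ht⟩ := hi
          exact ⟨t, by omega⟩⟩
      · intro i hi
        exact h11 _ (Int.not_odd_iff_even.1 hi)
  rw [ha]
  have : ∀ (m : ℕ) (b : Fin m → Nˣ), m = 0 → cl b = 0 := by
    intro m b hm
    subst hm
    simp [cl]
  exact this _ a hn0

end Pool.Agent.Helper78.W4
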